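import Mathlib

/-!
# Fourier analysis on the Boolean cube (elementary facts)
-/

namespace Pool.Agent.NegNet

open Finset
open scoped BigOperators

variable {V : Type} [Fintype V] [DecidableEq V]

/-- The sign of a bit. -/
def sg (b : Bool) : ℝ := if b then 1 else -1

/-- The character `χ_T`. -/
def chi (T : Finset V) (c : V → Bool) : ℝ := ∏ w ∈ T, sg (c w)

/-- The mean over the cube. -/
noncomputable def ex (f : (V → Bool) → ℝ) : ℝ := (∑ c, f c) / 2 ^ Fintype.card V

/-- Fourier coefficient. -/
noncomputable def hat (f : (V → Bool) → ℝ) (T : Finset V) : ℝ := ex (fun c => f c * chi T c)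

/-- Indicator that all bits of `S` are on. -/
def kk (S : Finset V) (c : V → Bool) : ℝ := if ∀ w ∈ S, c w = true then 1 else 0

theorem sg_sq (b : Bool) : sg b * sg b = 1 := by cases b <;> simp [sg]

theorem abs_sg (b : Bool) : |sg b| = 1 := by cases b <;> simp [sg]

theorem card_pos' : (0 : ℝ) < 2 ^ Fintype.card V := by positivity

theorem ex_add (f g : (V → Bool) → ℝ) : ex (fun c => f c + g c) = ex f + ex g := by
  simp [ex, sum_add_distrib, add_div]

theorem ex_sub (f g : (V → Bool) → ℝ) : ex (fun c => f c - g c) = ex f - ex g := by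
  simp [ex, sum_sub_distrib, sub_div]

theorem ex_mul_left (a : ℝ) (f : (V → Bool) → ℝ) : ex (fun c => a * f c) = a * ex f := by
  simp [ex, ← mul_sum, mul_div_assoc]

theorem ex_sum {ι : Type*} (s : Finset ι) (f : ι → (V → Bool) → ℝ) :
    ex (fun c => ∑ i ∈ s, f i c) = ∑ i ∈ s, ex (f i) := by
  simp only [ex]
  rw [sum_comm, sum_div]

theorem ex_mono {f g : (V → Bool) → ℝ} (h : ∀ c, f c ≤ g c) : ex f ≤ ex g := by
  unfold ex
  exact div_le_div_of_nonneg_right (sum_le_sum fun c _ => h c) (by positivity)

theorem ex_nonneg {f : (V → Bool) → ℝ} (h : ∀ c, 0 ≤ f c) : 0 ≤ ex f := by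
  unfold ex
  exact div_nonneg (sum_nonneg fun c _ => h c) (by positivity)

theorem ex_const (a : ℝ) : ex (fun _ : V → Bool => a) = a := by
  simp [ex]

/-- Product formula. -/
theorem ex_prod (f : V → Bool → ℝ) :
    ex (fun c => ∏ w, f w (c w)) = ∏ w, ((f w true + f w false) / 2) := by
  unfold ex
  have h := Finset.prod_univ_sum (fun _ : V => (univ : Finset Bool)) (fun w b => f w b)
  rw [Fintype.piFinset_univ] at h
  rw [← h, prod_div_distrib]
  simp [Finset.prod_const]

theorem chi_eq_prod (T : Finset V) (c : V → Bool) :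
    chi T c = ∏ w, (if w ∈ T then sg (c w) else 1) := by
  unfold chi
  rw [prod_ite_mem]
  simp

theorem kk_eq_prod (S : Finset V) (c : V → Bool) :
    kk S c = ∏ w, (if w ∈ S then (if c w then (1 : ℝ) else 0) else 1) := by
  unfold kk
  split_ifs with h
  · symm
    apply prod_eq_one
    intro w _
    split_ifs with h1 h2
    · rfl
    · exact absurd (h w h1) (by simpa using h2)
    · rfl
  · push_neg at h
    obtain ⟨w, hw, hc⟩ := h
    symm
    apply prod_eq_zero (mem_univ w)
    simp [hw, hc]

theorem kk_mul (S T : Finset V) (c : V → Bool) : kk S c * kk T c = kk (S ∪ T) c := by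
  unfold kk
  by_cases h1 : ∀ w ∈ S, c w = true <;> by_cases h2 : ∀ w ∈ T, c w = true
  · have : ∀ w ∈ S ∪ T, c w = true := by
      intro w hw
      rcases mem_union.1 hw with h | h
      · exact h1 w h
      · exact h2 w h
    simp only [if_pos h1, if_pos h2, if_pos this, mul_one]
  · have : ¬ ∀ w ∈ S ∪ T, c w = true := fun h => h2 fun w hw => h w (mem_union_right _ hw)
    simp only [if_neg h2, if_neg this, mul_zero]
  · have : ¬ ∀ w ∈ S ∪ T, c w = true := fun h => h1 fun w hw => h w (mem_union_left _ hw)
    simp only [if_neg h1, if_neg this, zero_mul]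
  · have : ¬ ∀ w ∈ S ∪ T, c w = true := fun h => h1 fun w hw => h w (mem_union_left _ hw)
    simp only [if_neg h1, if_neg this, zero_mul]

/-- Completeness of the characters. -/
theorem sum_chi_chi (c c' : V → Bool) :
    ∑ T : Finset V, chi T c * chi T c' = if c = c' then 2 ^ Fintype.card V else 0 := by
  have h1 : ∀ T : Finset V, chi T c * chi T c' = ∏ w ∈ T, (sg (c w) * sg (c' w)) := by
    intro T; simp [chi, prod_mul_distrib]
  have h2 : ∑ T : Finset V, chi T c * chi T c' = ∏ w, (1 + sg (c w) * sg (c' w)) := by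
    rw [Finset.prod_one_add]
    simp only [h1]
    rw [Finset.powerset_univ]
  rw [h2]
  split_ifs with h
  · subst h
    simp only [sg_sq]
    norm_num
  · have : ∃ w, c w ≠ c' w := by
      by_contra hh
      push_neg at hh
      exact h (funext hh)
    obtain ⟨w, hw⟩ := this
    apply prod_eq_zero (mem_univ w)
    cases h1 : c w <;> cases h2 : c' w <;> simp_all [sg]

/-- Parseval. -/
theorem parseval (f g : (V → Bool) → ℝ) :
    ∑ T : Finset V, hat f T * hat g T = ex (fun c => f c * g c) := by
  have h0 : (2 : ℝ) ^ Fintype.card V ≠ 0 := by positivity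
  have h1 : ∀ T : Finset V, hat f T * hat g T =
      (∑ c, ∑ c', f c * g c' * (chi T c * chi T c')) / (2 ^ Fintype.card V * 2 ^ Fintype.card V) := by
    intro T
    unfold hat ex
    rw [div_mul_div_comm, sum_mul_sum]
    congr 1
    refine sum_congr rfl fun c _ => sum_congr rfl fun c' _ => ?_
    ring
  simp only [h1]
  rw [← sum_div]
  have h2 : ∑ T : Finset V, ∑ c, ∑ c', f c * g c' * (chi T c * chi T c')
      = ∑ c, f c * g c * 2 ^ Fintype.card V := by
    rw [sum_comm]
    refine sum_congr rfl fun c _ => ?_
    rw [sum_comm]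
    have : ∀ c' : V → Bool, ∑ T : Finset V, f c * g c' * (chi T c * chi T c')
        = if c = c' then f c * g c' * 2 ^ Fintype.card V else 0 := by
      intro c'
      rw [← mul_sum, sum_chi_chi]
      split_ifs <;> simp
    simp only [this]
    simp
  rw [h2, ← sum_mul, ex]
  field_simp

/-- Inversion. -/
theorem inversion (f : (V → Bool) → ℝ) (c : V → Bool) :
    f c = ∑ T : Finset V, hat f T * chi T c := by
  have h0 : (2 : ℝ) ^ Fintype.card V ≠ 0 := by positivity
  have h1 : ∀ T : Finset V, hat f T * chi T c =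
      (∑ c', f c' * (chi T c' * chi T c)) / 2 ^ Fintype.card V := by
    intro T
    unfold hat ex
    rw [div_mul_eq_mul_div, sum_mul]
    congr 1
    refine sum_congr rfl fun c' _ => ?_
    ring
  simp only [h1]
  rw [← sum_div, sum_comm]
  have : ∀ c' : V → Bool, ∑ T : Finset V, f c' * (chi T c' * chi T c)
      = if c' = c then f c' * 2 ^ Fintype.card V else 0 := by
    intro c'
    rw [← mul_sum, sum_chi_chi]
    split_ifs <;> simp
  simp only [this]
  simp [h0]

theorem hat_sum_sq (f : (V → Bool) → ℝ) : ∑ T : Finset V, hat f T ^ 2 = ex (fun c => f c ^ 2) := by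
  simp only [pow_two]
  exact parseval f f

/-- `E[χ_T K_S] = 2^{-|S|} [T ⊆ S]`. -/
theorem ex_chi_kk (T S : Finset V) :
    ex (fun c => chi T c * kk S c) = if T ⊆ S then (1 / 2 : ℝ) ^ S.card else 0 := by
  have h1 : (fun c : V → Bool => chi T c * kk S c) = fun c => ∏ w,
      ((if w ∈ T then sg (c w) else 1) * (if w ∈ S then (if c w then (1 : ℝ) else 0) else 1)) := by
    funext c
    rw [chi_eq_prod, kk_eq_prod, prod_mul_distrib]
  rw [h1]
  have := ex_prod (V := V) (fun w b =>
    ((if w ∈ T then sg b else 1) * (if w ∈ S then (if b then (1 : ℝ) else 0) else 1)))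
  rw [this]
  clear this
  by_cases h : T ⊆ S
  · rw [if_pos h]
    have : ∀ w : V, (((if w ∈ T then sg true else 1) *
        (if w ∈ S then (if true = true then (1 : ℝ) else 0) else 1)) +
        ((if w ∈ T then sg false else 1) *
        (if w ∈ S then (if false = true then (1 : ℝ) else 0) else 1))) / 2
        = if w ∈ S then (1 / 2 : ℝ) else 1 := by
      intro w
      by_cases h1 : w ∈ S
      · by_cases h2 : w ∈ T <;> simp [h1, h2, sg]
      · have h2 : w ∉ T := fun hh => h1 (h hh)
        simp [h1, h2]
    rw [prod_congr rfl fun w _ => this w]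
    rw [prod_ite_mem]
    simp
  · rw [if_neg h]
    obtain ⟨w, hw, hS⟩ := not_subset.1 h
    apply prod_eq_zero (mem_univ w)
    simp [hw, hS, sg]

/-- `χ_T` in the basis `K_S`. -/
theorem chi_expand (T : Finset V) (c : V → Bool) :
    chi T c = ∑ S ∈ T.powerset, (2 : ℝ) ^ S.card * (-1) ^ (T.card - S.card) * kk S c := by
  have h1 : chi T c = ∏ w ∈ T, ((2 * (if c w then (1 : ℝ) else 0)) + (-1)) := by
    unfold chi
    refine prod_congr rfl fun w _ => ?_
    cases c w <;> norm_num [sg]
  rw [h1, Finset.prod_add]
  refine sum_congr rfl fun S hS => ?_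
  have hS' := mem_powerset.1 hS
  rw [prod_const, card_sdiff_of_subset hS', prod_mul_distrib, prod_const]
  have : ∏ w ∈ S, (if c w then (1 : ℝ) else 0) = kk S c := by
    rw [kk_eq_prod, prod_ite_mem]
    simp
  rw [this]
  ring

/-- Moebius inversion. -/
theorem moebius (F : Finset V → ℝ) (S : Finset V) :
    ∑ T ∈ S.powerset, ∑ R ∈ T.powerset, (-1 : ℝ) ^ (T.card - R.card) * F R = F S := by
  induction S using Finset.induction_on generalizing F with
  | empty => simp
  | insert x S hx ih =>
    rw [sum_powerset_insert hx, ← sum_add_distrib]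
    have key : ∀ T ∈ S.powerset,
        (∑ R ∈ T.powerset, (-1 : ℝ) ^ (T.card - R.card) * F R +
          ∑ R ∈ (insert x T).powerset, (-1 : ℝ) ^ ((insert x T).card - R.card) * F R)
        = ∑ R ∈ T.powerset, (-1 : ℝ) ^ (T.card - R.card) * (fun R => F (insert x R)) R := by
      intro T hT
      have hT' := mem_powerset.1 hT
      have hxT : x ∉ T := fun h => hx (hT' h)
      rw [sum_powerset_insert hxT, ← add_assoc, ← sum_add_distrib]
      have h1 : ∑ R ∈ T.powerset, ((-1 : ℝ) ^ (T.card - R.card) * F R +
          (-1 : ℝ) ^ ((insert x T).card - R.card) * F R) = 0 := by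
        apply sum_eq_zero
        intro R hR
        have hR' := card_le_card (mem_powerset.1 hR)
        rw [card_insert_of_notMem hxT]
        have : T.card + 1 - R.card = (T.card - R.card) + 1 := by omega
        rw [this, pow_succ]
        ring
      rw [h1, zero_add]
      refine sum_congr rfl fun R hR => ?_
      have hxR : x ∉ R := fun h => hxT ((mem_powerset.1 hR) h)
      rw [card_insert_of_notMem hxT, card_insert_of_notMem hxR]
      have : T.card + 1 - (R.card + 1) = T.card - R.card := by omega
      rw [this]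
    rw [sum_congr rfl key]
    exact ih _

end Pool.Agent.NegNet
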