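import Mathlib

/-!
# Networks with a few non-monotone bits: definitions
-/

namespace Pool.Agent.NegNet

open Finset
open scoped BigOperators

/-- A label of an edge: a variable, or an arbitrary Boolean function of the list of the acceptance
bits of the earlier networks. -/
inductive Label (V : Type) : Type
  | var (v : V) : Label V
  | fn (φ : List Bool → Bool) : Label V

/-- Is the label `l` true at the input `x`, if `b` lists the bits of the earlier networks? -/
def Label.Holds {V : Type} (x : V → Bool) (b : List Bool) : Label V → Prop
  | .var v => x v = true
  | .fn φ => φ b = true

/-- A network: vertices `0, ..., size - 1`, a source, a sink, and a set of labelled pairs of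
vertices. -/
structure Net (V : Type) : Type where
  size : ℕ
  source : Fin size
  sink : Fin size
  edge : Fin size → Fin size → Label V → Prop

/-- There is an open edge from `u` to `v`. -/
def Net.Open {V : Type} (H : Net V) (x : V → Bool) (b : List Bool) (u v : Fin H.size) : Prop :=
  ∃ l, H.edge u v l ∧ l.Holds x b

/-- Acceptance. Directed networks (`dir = true`): there is a walk along open edges from the source
to the sink. Undirected networks (`dir = false`): there is a walk from the source to the sink which
may use the open edges in both directions. -/
def Net.Acc {V : Type} (dir : Bool) (H : Net V) (x : V → Bool) (b : List Bool) : Prop :=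
  Relation.ReflTransGen (fun u v => H.Open x b u v ∨ (dir = false ∧ H.Open x b v u))
    H.source H.sink

open Classical in
/-- The acceptance bits of a list of networks at the input `x`, after the bits `b`. -/
noncomputable def bitsFrom {V : Type} (dir : Bool) (x : V → Bool) :
    List (Net V) → List Bool → List Bool
  | [], b => b
  | H :: L, b => bitsFrom dir x L (b ++ [decide (H.Acc dir x b)])

/-- The acceptance bits of a list of networks at the input `x`. -/
noncomputable def bits {V : Type} (dir : Bool) (L : List (Net V)) (x : V → Bool) : List Bool :=
  bitsFrom dir x L []

/-- Along every increasing sequence of inputs the list of the acceptance bits changes at most `a`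
times. -/
def FlipsAtMost {V : Type} (dir : Bool) (L : List (Net V)) (a : ℕ) : Prop :=
  ∀ x : ℕ → V → Bool, Monotone x → ∀ n : ℕ,
    ((range n).filter (fun k => bits dir L (x k) ≠ bits dir L (x (k + 1)))).card ≤ a

/-- The number of vertices of all networks of a list. -/
def totalSize {V : Type} (L : List (Net V)) : ℕ := (L.map Net.size).sum

/-- The system which consists of the networks `L` and then the output network `H` accepts. -/
def SysAcc {V : Type} (dir : Bool) (L : List (Net V)) (H : Net V) (x : V → Bool) : Prop :=
  H.Acc dir x (bits dir L x)

end Pool.Agent.NegNet
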