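import Pool.Agent.NegNet.Sys

/-!
# The pebbling invariant of the pyramid (N5)

`ρ S`: some lattice path `p`, from a source `(0, p 0)` to the apex `(h - 1, 0)`, avoids `S`.
-/

namespace Pool.Agent.NegNet

open Finset

/-- a lattice path of the pyramid which avoids `S` -/
def PyrPath (h : ℕ) (S : Finset (Fin h × Fin (h + 1))) (p : ℕ → ℕ) : Prop :=
  p (h - 1) = 0 ∧ (∀ k, k + 1 < h → p k = p (k + 1) ∨ p k = p (k + 1) + 1) ∧
    ∀ u ∈ S, u.1.val + 1 < h → u.2.val ≠ p u.1.val

lemma PyrPath.mono {h : ℕ} {S T : Finset (Fin h × Fin (h + 1))} {p : ℕ → ℕ} (hp : PyrPath h T p)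
    (hST : S ⊆ T) : PyrPath h S p :=
  ⟨hp.1, hp.2.1, fun u hu => hp.2.2 u (hST hu)⟩

/-- the path from the source `a < p 0` -/
lemma PyrPath.left {h : ℕ} {p : ℕ → ℕ} (hp : PyrPath h ∅ p) (a : ℕ) :
    PyrPath h ∅ (fun k => min (p k) a) := by
  refine ⟨by simp [hp.1], fun k hk => ?_, by simp⟩
  have h1 := hp.2.1 k hk
  simp only
  omega

/-- the path from the source `a > p 0` -/
lemma PyrPath.right {h : ℕ} {p : ℕ → ℕ} (hp : PyrPath h ∅ p) {a : ℕ} (ha : a < h) :
    PyrPath h ∅ (fun k => max (p k) (a - k)) := by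
  refine ⟨?_, fun k hk => ?_, by simp⟩
  · simp only
    rw [hp.1]
    omega
  · have h1 := hp.2.1 k hk
    simp only
    omega

lemma PyrPath.of {h : ℕ} {S : Finset (Fin h × Fin (h + 1))} {p : ℕ → ℕ} (hp : PyrPath h ∅ p)
    (hS : ∀ u ∈ S, u.1.val + 1 < h → u.2.val ≠ p u.1.val) : PyrPath h S p :=
  ⟨hp.1, hp.2.1, hS⟩

/-- the other sources: if a path from the source `x` avoids `S`, and no path from another source
does, then `S` has at least `h - 1` elements -/
lemma pyr_count {h : ℕ} {S : Finset (Fin h × Fin (h + 1))} {p : ℕ → ℕ} {x : ℕ} (hx : x < h)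
    (hp : PyrPath h S p) (hpx : p 0 = x)
    (hno : ∀ q : ℕ → ℕ, q 0 ≠ x → ¬ PyrPath h S q) : h - 1 ≤ S.card := by
  have hp0 : PyrPath h ∅ p := hp.mono (empty_subset S)
  have key : ∀ a : ℕ, ∃ u : Fin h × Fin (h + 1), a < h → a ≠ x →
      u ∈ S ∧ ((a < x ∧ u.2.val = a ∧ a < p u.1.val) ∨
        (x < a ∧ u.2.val + u.1.val = a ∧ p u.1.val < u.2.val)) := by
    intro a
    by_cases ha : a < h ∧ a ≠ x
    swap
    · have hh : 0 < h := by omega
      exact ⟨(⟨0, hh⟩, 0), fun h1 h2 => absurd ⟨h1, h2⟩ ha⟩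
    obtain ⟨ha, hax⟩ := ha
    rcases lt_or_gt_of_ne hax with hlt | hgt
    · have h1 : ¬ ∀ u ∈ S, u.1.val + 1 < h → u.2.val ≠ min (p u.1.val) a := fun h2 =>
        hno (fun k => min (p k) a) (by omega) ((hp0.left a).of h2)
      push Not at h1
      obtain ⟨u, hu, hu1, hu2⟩ := h1
      have h3 := hp.2.2 u hu hu1
      exact ⟨u, fun _ _ => ⟨hu, Or.inl ⟨hlt, by omega, by omega⟩⟩⟩
    · have h1 : ¬ ∀ u ∈ S, u.1.val + 1 < h → u.2.val ≠ max (p u.1.val) (a - u.1.val) := fun h2 =>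
        hno (fun k => max (p k) (a - k)) (by omega) ((hp0.right ha).of h2)
      push Not at h1
      obtain ⟨u, hu, hu1, hu2⟩ := h1
      have h3 := hp.2.2 u hu hu1
      exact ⟨u, fun _ _ => ⟨hu, Or.inr ⟨hgt, by omega, by omega⟩⟩⟩
  choose f hf using key
  have hcard : ((range h).erase x).card = h - 1 := by
    rw [card_erase_of_mem (mem_range.2 hx), card_range]
  rw [← hcard]
  refine card_le_card_of_injOn f (fun a ha => ?_) (fun a ha b hb hab => ?_)
  · have ha' := mem_erase.1 (mem_coe.1 ha)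
    exact mem_coe.2 (hf a (mem_range.1 ha'.2) ha'.1).1
  · have ha' := mem_erase.1 (mem_coe.1 ha)
    have hb' := mem_erase.1 (mem_coe.1 hb)
    have h1 := (hf a (mem_range.1 ha'.2) ha'.1).2
    have h2 := (hf b (mem_range.1 hb'.2) hb'.1).2
    rw [hab] at h1
    omega

theorem pyrRho : PyrRho := by
  intro h hh
  refine ⟨fun S => ∃ p, PyrPath h S p, ?_, ?_, ?_⟩
  · exact ⟨fun _ => 0, rfl, fun k _ => Or.inl rfl, by simp⟩
  · rintro ⟨⟨k, x⟩, hr⟩ u hu S hcard
    simp only at hr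
    have hc : (pyrSys h).c ⟨(k, x), hr⟩ = if k.val + 1 < h then some (k, x.castSucc) else none := rfl
    rw [hc] at hu
    split_ifs at hu with hk
    rw [Option.some_inj] at hu
    subst hu
    constructor
    swap
    · rintro ⟨p, hp⟩
      exact ⟨p, hp.mono (subset_insert _ _)⟩
    rintro ⟨p, hp⟩
    by_cases hpk : p k.val = x.val
    swap
    · refine ⟨p, hp.1, hp.2.1, fun v hv hv1 => ?_⟩
      rcases mem_insert.1 hv with rfl | hv
      · simpa using fun h1 => hpk h1.symm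
      · exact hp.2.2 v hv hv1
    rcases Nat.eq_zero_or_pos k.val with hk0 | hk0
    · -- a source
      by_contra hno
      have hno' : ∀ q : ℕ → ℕ, q 0 ≠ x.val →
          ¬ PyrPath h (S ∪ (pyrSys h).A ⟨(k, x), hr⟩) q := by
        intro q hq hq2
        refine hno ⟨q, hq2.1, hq2.2.1, fun v hv hv1 => ?_⟩
        rcases mem_insert.1 hv with rfl | hv
        · intro h1
          apply hq
          rw [← hk0, ← h1]
          rfl
        · exact hq2.2.2 v hv hv1
      have h1 := pyr_count x.2 hp (by rw [← hk0]; exact hpk) hno'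
      have h2 : (k, x.castSucc) ∉ S ∪ (pyrSys h).A ⟨(k, x), hr⟩ := by
        intro h3
        exact hp.2.2 _ h3 hk hpk.symm
      rw [card_insert_of_notMem h2] at hcard
      omega
    · -- the premises block the path
      exfalso
      obtain ⟨j, hj⟩ : ∃ j, k.val = j + 1 := ⟨k.val - 1, by omega⟩
      have hjh : j < h := by omega
      have h1 := hp.2.1 j (by omega)
      rw [← hj, hpk] at h1
      have hy : p j < h + 1 := by omega
      have h2 : ((⟨j, hjh⟩, ⟨p j, hy⟩) : Fin h × Fin (h + 1)) ∈ S ∪ (pyrSys h).A ⟨(k, x), hr⟩ := by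
        refine mem_union_right _ (mem_filter.2 ⟨mem_univ _, ?_, ?_⟩)
        · exact hj.symm
        · exact h1
      exact hp.2.2 _ h2 (by simp only; omega) rfl
  · rintro ⟨⟨k, x⟩, hr⟩ hu S _
    simp only at hr
    have hc : (pyrSys h).c ⟨(k, x), hr⟩ = if k.val + 1 < h then some (k, x.castSucc) else none := rfl
    rw [hc] at hu
    split_ifs at hu with hk
    rintro ⟨p, hp⟩
    obtain ⟨j, hj⟩ : ∃ j, h = j + 2 := ⟨h - 2, by omega⟩
    subst hj
    have hk' : k.val = j + 1 := by omega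
    have hx' : x.val = 0 := by omega
    have h1 := hp.2.1 j (by omega)
    have h0 : p (j + 1) = 0 := hp.1
    rw [h0] at h1
    have hy : p j < j + 2 + 1 := by omega
    have hjh : j < j + 2 := by omega
    have h2 : ((⟨j, hjh⟩, ⟨p j, hy⟩) : Fin (j + 2) × Fin (j + 2 + 1)) ∈
        S ∪ (pyrSys (j + 2)).A ⟨(k, x), hr⟩ := by
      refine mem_union_right _ (mem_filter.2 ⟨mem_univ _, ?_, ?_⟩)
      · exact hk'.symm
      · simp only
        rw [hx']
        exact h1
    exact hp.2.2 _ h2 (by simp only; omega) rfl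

end Pool.Agent.NegNet
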