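import Mathlib

/-!
# Rule systems, monotone networks with general vertex types (library level)
-/

namespace Pool.Agent.NegNet

open Finset
open scoped BigOperators

/-- A rule system on the places `U`: rule `r` has the premises `A r` and the conclusion `c r`
(`none`: the end). -/
structure RSys (U R : Type) where
  A : R → Finset U
  c : R → Option U

/-- The pebbling invariant with at most `h` pebbles. -/
structure Rho {U R : Type} [DecidableEq U] (σ : RSys U R) (h : ℕ) (ρ : Finset U → Prop) :
    Prop where
  empty : ρ ∅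
  step : ∀ r u, σ.c r = some u → ∀ S : Finset U, (insert u (S ∪ σ.A r)).card ≤ h →
    (ρ (S ∪ σ.A r) ↔ ρ (insert u (S ∪ σ.A r)))
  fin : ∀ r, σ.c r = none → ∀ S : Finset U, (S ∪ σ.A r).card ≤ h → ¬ ρ (S ∪ σ.A r)

/-- The path with the places `0, ..., m - 1`: rules `→ 0`, `i → i + 1`, `m - 1 → end`. -/
def pathSys (m : ℕ) : RSys (Fin m) (Fin (m + 1)) where
  A r := univ.filter (fun i : Fin m => i.val + 1 = r.val)
  c r := if h : r.val < m then some ⟨r.val, h⟩ else none

/-- The pyramid. Places `(k, x)`, level `k + 1` of the levels `1, ..., h - 1`, position `x`; only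
positions with `x + (k + 1) ≤ h` are used. Rules `(k, x)` with `k + x + 1 ≤ h`: the premises are
the places `x`, `x + 1` of level `k` (none if `k = 0`) and the conclusion is the place `x` of level
`k + 1` (the end if `k + 1 = h`). -/
def pyrSys (h : ℕ) : RSys (Fin h × Fin (h + 1)) {r : Fin h × Fin h // r.1.val + r.2.val + 1 ≤ h} where
  A r := univ.filter (fun u : Fin h × Fin (h + 1) =>
    u.1.val + 1 = r.1.1.val ∧ (u.2.val = r.1.2.val ∨ u.2.val = r.1.2.val + 1))
  c r := if r.1.1.val + 1 < h then some (r.1.1, r.1.2.castSucc) else none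

/-- A monotone network with vertex type `W`: `lab u v` is the set of labels of the edges from `u`
to `v`, `none` = always open, `some e` = the variable `e`. -/
structure MNet (B W : Type) where
  s : W
  t : W
  lab : W → W → Set (Option B)

/-- Open edge. -/
def MNet.On {B W : Type} (N : MNet B W) (x : B → Bool) (u v : W) : Prop :=
  ∃ l ∈ N.lab u v, ∀ e, l = some e → x e = true

/-- Undirected (`dir = false`) or directed acceptance. -/
def MNet.Acc {B W : Type} (dir : Bool) (N : MNet B W) (x : B → Bool) : Prop :=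
  Relation.ReflTransGen (fun u v => N.On x u v ∨ (dir = false ∧ N.On x v u)) N.s N.t

/-- N4 (path). -/
def PathRho : Prop := ∀ h : ℕ, 1 ≤ h → ∃ ρ, Rho (pathSys (2 ^ h)) h ρ

/-- N5 (pyramid). -/
def PyrRho : Prop := ∀ h : ℕ, 2 ≤ h → ∃ ρ, Rho (pyrSys h) (h - 1) ρ

/-- N6 (directed to undirected, Savitch): a directed monotone network with at most `2 ^ r`
vertices is simulated by an undirected one with at most `2 ^ ((r + 1) ^ 2)` vertices. -/
def DirUndir : Prop := ∀ (B W : Type) [Fintype W] (N : MNet B W) (r : ℕ), Fintype.card W ≤ 2 ^ r →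
  ∃ (k : ℕ) (N' : MNet B (Fin k)), k ≤ 2 ^ ((r + 1) ^ 2) ∧
    ∀ x : B → Bool, N'.Acc false x ↔ N.Acc true x

end Pool.Agent.NegNet
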